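import Pool.Agent.H516.FS.Defs

/-!
# Chowla with limit periodic weights from Chowla in residue classes (`S_L7`)
-/

set_option autoImplicit false
set_option linter.all false

namespace Pool.Agent.H894.FS

open Polynomial Filter Topology Finset
open scoped Classical
open Pool.Agent.H694.Typ (Mn mem_Mn card_Mn pol pol_inj exists_pol)
open Pool.Agent.H516.FS

theorem lam_abs_le {K : Type} [Field K] (F : K[X]) : |(lam F : ℝ)| ≤ 1 := by
  unfold lam
  split_ifs with h
  · simp
  · push_cast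
    rw [abs_pow, abs_neg, abs_one, one_pow]

theorem lam_norm_le {K : Type} [Field K] (F : K[X]) : ‖((lam F : ℤ) : ℂ)‖ ≤ 1 := by
  have h := lam_abs_le F
  have e : ((lam F : ℤ) : ℂ) = (((lam F : ℤ) : ℝ) : ℂ) := by push_cast; rfl
  rw [e, Complex.norm_real, Real.norm_eq_abs]
  exact h

/-- the polynomials of degree less than `d` -/
noncomputable def Rd (K : Type) [Field K] [Fintype K] (d : ℕ) : Finset K[X] :=
  Finset.univ.image (pol : (Fin d → K) → K[X])

theorem card_Rd {K : Type} [Field K] [Fintype K] (d : ℕ) :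
    (Rd K d).card = Fintype.card K ^ d := by
  unfold Rd
  rw [Finset.card_image_of_injective _ pol_inj, Finset.card_univ, Fintype.card_fun,
    Fintype.card_fin]

theorem mem_Rd {K : Type} [Field K] [Fintype K] {d : ℕ} {f : K[X]} (h : f.degree < d) :
    f ∈ Rd K d := by
  obtain ⟨c, hc⟩ := exists_pol h
  unfold Rd
  rw [Finset.mem_image]
  exact ⟨c, Finset.mem_univ _, hc⟩

/-- the sum of a periodic function against `G` is controlled by the sums in residue classes -/
theorem per_sum {K : Type} [Field K] [Fintype K] {Q : K[X]} (hQ : Q.Monic) {v : K[X] → ℂ}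
    (hv : PerMod Q v) (hv1 : ∀ a, ‖v a‖ ≤ 1) (n : ℕ) (G : K[X] → ℝ) (B : ℝ)
    (hB : ∀ r : K[X], |∑ f ∈ (Mn K n).filter (fun f => Q ∣ f - r), G f| ≤ B) :
    ‖∑ f ∈ Mn K n, v f * (G f : ℂ)‖ ≤ (Fintype.card K : ℝ) ^ Q.natDegree * B := by
  have hmap : ∀ f ∈ Mn K n, f %ₘ Q ∈ Rd K Q.natDegree := by
    intro f _
    apply mem_Rd
    have h1 := degree_modByMonic_lt f hQ
    rw [degree_eq_natDegree hQ.ne_zero] at h1
    exact h1
  rw [← Finset.sum_fiberwise_of_maps_to hmap]
  have hcl : ∀ r ∈ Rd K Q.natDegree,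
      ‖∑ f ∈ (Mn K n).filter (fun f => f %ₘ Q = r), v f * (G f : ℂ)‖ ≤ B := by
    intro r _
    have hB0 : 0 ≤ B := le_trans (abs_nonneg _) (hB r)
    rcases Finset.eq_empty_or_nonempty ((Mn K n).filter (fun f => f %ₘ Q = r)) with he | ⟨f0, hf0⟩
    · rw [he, Finset.sum_empty, norm_zero]
      exact hB0
    · rw [Finset.mem_filter] at hf0
      have hset : (Mn K n).filter (fun f => f %ₘ Q = r) =
          (Mn K n).filter (fun f => Q ∣ f - r) := by
        apply Finset.filter_congr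
        intro f _
        have hrr : r %ₘ Q = r := by
          rw [← hf0.2]
          rw [modByMonic_eq_self_iff hQ]
          exact degree_modByMonic_lt f0 hQ
        constructor
        · intro h
          rw [← modByMonic_eq_zero_iff_dvd hQ, sub_modByMonic, h, hrr, sub_self]
        · intro h
          rw [← modByMonic_eq_zero_iff_dvd hQ, sub_modByMonic, hrr] at h
          exact sub_eq_zero.1 h
      have e1 : ∑ f ∈ (Mn K n).filter (fun f => f %ₘ Q = r), v f * (G f : ℂ) =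
          v r * ((∑ f ∈ (Mn K n).filter (fun f => Q ∣ f - r), G f : ℝ) : ℂ) := by
        rw [hset, Complex.ofReal_sum, Finset.mul_sum]
        apply Finset.sum_congr rfl
        intro f hf
        rw [Finset.mem_filter] at hf
        rw [hv f r hf.2]
      rw [e1, norm_mul, Complex.norm_real, Real.norm_eq_abs]
      calc ‖v r‖ * |∑ f ∈ (Mn K n).filter (fun f => Q ∣ f - r), G f| ≤ 1 * B :=
            mul_le_mul (hv1 r) (hB r) (abs_nonneg _) zero_le_one
        _ = B := one_mul B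
  calc ‖∑ r ∈ Rd K Q.natDegree, ∑ f ∈ (Mn K n).filter (fun f => f %ₘ Q = r), v f * (G f : ℂ)‖
      ≤ ∑ r ∈ Rd K Q.natDegree, ‖∑ f ∈ (Mn K n).filter (fun f => f %ₘ Q = r), v f * (G f : ℂ)‖ :=
        norm_sum_le _ _
    _ ≤ ∑ r ∈ Rd K Q.natDegree, B := Finset.sum_le_sum hcl
    _ = (Fintype.card K : ℝ) ^ Q.natDegree * B := by
        rw [Finset.sum_const, card_Rd, nsmul_eq_mul]
        push_cast
        ring

theorem l7 (hP : S_powL) : Pool.Agent.H516.FS.S_L7 := by
  intro K _ _ _ u S hu hS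
  set q : ℝ := (Fintype.card K : ℝ) with hq
  have hq2 : (2 : ℝ) ≤ q := by
    rw [hq]
    exact_mod_cast (Fintype.one_lt_card (α := K))
  have hq0 : 0 < q := by linarith
  -- the real correlation
  set G : K[X] → ℝ := fun f => ∏ h ∈ S, (lam (f + h) : ℝ) with hG
  have hGC : ∀ f, (∏ h ∈ S, ((lam (f + h) : ℤ) : ℂ)) = (G f : ℂ) := by
    intro f
    rw [hG]
    push_cast
    rfl
  have hG1 : ∀ f, |G f| ≤ 1 := by
    intro f
    rw [hG]
    simp only
    rw [Finset.abs_prod]
    exact Finset.prod_le_one (fun _ _ => abs_nonneg _) (fun h _ => lam_abs_le _)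
  -- the enumeration
  have hk : 1 ≤ S.card := Finset.card_pos.2 hS
  obtain ⟨c, hc, n0, hpow⟩ := hP K S.card hk
  set e : Fin S.card → K[X] := fun i => ((S.equivFin.symm i : S) : K[X]) with he
  have hinj : Function.Injective e := by
    intro i j hij
    exact S.equivFin.symm.injective (Subtype.ext hij)
  have hprod : ∀ f, (∏ i, (lam (f + e i) : ℝ)) = G f := by
    intro f
    rw [hG]
    simp only
    rw [← Finset.prod_coe_sort S (fun h => (lam (f + h) : ℝ))]
    exact Equiv.prod_comp S.equivFin.symm (fun h : S => (lam (f + (h : K[X])) : ℝ))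
  rw [Metric.tendsto_atTop]
  intro ε hε
  obtain ⟨R, hR, v, hper, hv1, N1, hN1⟩ := hu (ε / 2) (by linarith)
  set Q : K[X] := normalize R with hQd
  have hQ : Q.Monic := monic_normalize hR
  have hperQ : PerMod Q v := by
    intro a b hab
    apply hper
    rw [hQd, normalize_dvd_iff] at hab
    exact hab
  -- eventually the error is small
  have hlim : Tendsto (fun n : ℕ => q ^ Q.natDegree * (q ^ (-c)) ^ n) atTop (𝓝 0) := by
    have h1 : Tendsto (fun n : ℕ => (q ^ (-c)) ^ n) atTop (𝓝 0) := by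
      apply tendsto_pow_atTop_nhds_zero_of_lt_one (Real.rpow_nonneg hq0.le _)
      exact Real.rpow_lt_one_of_one_lt_of_neg (by linarith) (by linarith)
    have h2 := h1.const_mul (q ^ Q.natDegree)
    rw [mul_zero] at h2
    exact h2
  have hev : ∀ᶠ n : ℕ in atTop, q ^ Q.natDegree * (q ^ (-c)) ^ n < ε / 2 :=
    hlim.eventually_lt_const (by linarith)
  obtain ⟨N2, hN2⟩ := eventually_atTop.1 hev
  obtain ⟨N3, hN3⟩ := exists_nat_gt ((Q.natDegree : ℝ) / c)
  set N4 : ℕ := S.sup (fun h => h.natDegree) + 1 with hN4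
  refine ⟨max (max N1 N2) (max (max N3 N4) n0), ?_⟩
  intro n hn
  have hnN1 : N1 ≤ n := le_trans (le_trans (le_max_left _ _) (le_max_left _ _)) hn
  have hnN2 : N2 ≤ n := le_trans (le_trans (le_max_right _ _) (le_max_left _ _)) hn
  have hnN3 : N3 ≤ n :=
    le_trans (le_trans (le_trans (le_max_left _ _) (le_max_left _ _)) (le_max_right _ _)) hn
  have hnN4 : N4 ≤ n :=
    le_trans (le_trans (le_trans (le_max_right _ _) (le_max_left _ _)) (le_max_right _ _)) hn
  have hnn0 : n0 ≤ n := le_trans (le_trans (le_max_right _ _) (le_max_right _ _)) hn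
  have hdeg : ∀ i, (e i).natDegree < n := by
    intro i
    have h1 : (e i).natDegree ≤ S.sup (fun h => h.natDegree) :=
      Finset.le_sup (f := fun h : K[X] => h.natDegree) (S.equivFin.symm i).2
    omega
  have hQn : (Q.natDegree : ℝ) ≤ c * n := by
    have h1 : (Q.natDegree : ℝ) / c ≤ n := by
      have : (N3 : ℝ) ≤ n := by exact_mod_cast hnN3
      linarith
    rw [div_le_iff₀ hc] at h1
    linarith
  have hcl : ∀ r : K[X], |∑ f ∈ (Mn K n).filter (fun f => Q ∣ f - r), G f| ≤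
      q ^ ((n : ℝ) - c * n) := by
    intro r
    have h1 := hpow n hnn0 e Q r hinj hdeg hQ hQn
    have h2 : ∑ f ∈ (Mn K n).filter (fun f => Q ∣ f - r), ∏ i, (lam (f + e i) : ℝ) =
        ∑ f ∈ (Mn K n).filter (fun f => Q ∣ f - r), G f :=
      Finset.sum_congr rfl fun f _ => hprod f
    rw [h2] at h1
    exact h1
  have hmain := per_sum hQ hperQ hv1 n G _ hcl
  rw [dist_zero_right]
  unfold mean
  have hsplit : ∑ f ∈ Mn K n, u f * ∏ h ∈ S, ((lam (f + h) : ℤ) : ℂ) =
      ∑ f ∈ Mn K n, (u f - v f) * (G f : ℂ) + ∑ f ∈ Mn K n, v f * (G f : ℂ) := by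
    rw [← Finset.sum_add_distrib]
    apply Finset.sum_congr rfl
    intro f _
    rw [hGC]
    ring
  rw [hsplit, norm_div, norm_pow]
  have hnq : ‖(Fintype.card K : ℂ)‖ = q := by
    rw [hq, Complex.norm_natCast]
  rw [hnq]
  have hqn : 0 < q ^ n := pow_pos hq0 n
  have hA : ‖∑ f ∈ Mn K n, (u f - v f) * (G f : ℂ)‖ ≤ q ^ n * (ε / 2) := by
    have h1 := hN1 n hnN1
    unfold meanR at h1
    rw [div_le_iff₀ hqn] at h1
    calc ‖∑ f ∈ Mn K n, (u f - v f) * (G f : ℂ)‖ ≤ ∑ f ∈ Mn K n, ‖(u f - v f) * (G f : ℂ)‖ :=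
          norm_sum_le _ _
      _ ≤ ∑ f ∈ Mn K n, ‖u f - v f‖ := by
          apply Finset.sum_le_sum
          intro f _
          rw [norm_mul, Complex.norm_real, Real.norm_eq_abs]
          calc ‖u f - v f‖ * |G f| ≤ ‖u f - v f‖ * 1 :=
                mul_le_mul_of_nonneg_left (hG1 f) (norm_nonneg _)
            _ = ‖u f - v f‖ := mul_one _
      _ ≤ ε / 2 * q ^ n := h1
      _ = q ^ n * (ε / 2) := by ring
  have hB : ‖∑ f ∈ Mn K n, v f * (G f : ℂ)‖ < q ^ n * (ε / 2) := by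
    have h1 : q ^ ((n : ℝ) - c * n) = q ^ n * (q ^ (-c)) ^ n := by
      rw [← Real.rpow_natCast (q ^ (-c)) n, ← Real.rpow_mul hq0.le, ← Real.rpow_natCast q n,
        ← Real.rpow_add hq0]
      congr 1
      ring
    calc ‖∑ f ∈ Mn K n, v f * (G f : ℂ)‖ ≤ q ^ Q.natDegree * q ^ ((n : ℝ) - c * n) := hmain
      _ = q ^ n * (q ^ Q.natDegree * (q ^ (-c)) ^ n) := by rw [h1]; ring
      _ < q ^ n * (ε / 2) := mul_lt_mul_of_pos_left (hN2 n hnN2) hqn
  rw [div_lt_iff₀ hqn]
  calc ‖∑ f ∈ Mn K n, (u f - v f) * (G f : ℂ) + ∑ f ∈ Mn K n, v f * (G f : ℂ)‖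
      ≤ ‖∑ f ∈ Mn K n, (u f - v f) * (G f : ℂ)‖ + ‖∑ f ∈ Mn K n, v f * (G f : ℂ)‖ :=
        norm_add_le _ _
    _ < q ^ n * (ε / 2) + q ^ n * (ε / 2) := add_lt_add_of_le_of_lt hA hB
    _ = ε * q ^ n := by ring

end Pool.Agent.H894.FS
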